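import Mathlib
import Pool.Agent.H.MP_58bd73_nt.A

set_option autoImplicit false

namespace Pool.Agent.Results.MP_58bd73_nt.Dense

open PowerSeries Filter Topology

/-- the coefficient of `x ^ n` in the product of the `(1 - x ^ 2 ^ k) ^ m` -/
noncomputable def t (m n : ℕ) : ℤ :=
  coeff n (∏ k ∈ Finset.range (n + 1), (1 - X ^ 2 ^ k : ℤ⟦X⟧) ^ m)

theorem result : ∃ m : ℕ, 2 ≤ m ∧
    ¬ Tendsto (fun N : ℕ =>
      (((Finset.range N).filter fun n => Int.sign (t m (3 * n)) ≠ 1).card : ℝ) / N) atTop (𝓝 0) := by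
  refine ⟨2, le_rfl, ?_⟩
  simp only [ne_eq, Int.sign_eq_one_iff_pos, not_lt]
  exact Pool.Agent.H.MP_58bd73_nt.main

end Pool.Agent.Results.MP_58bd73_nt.Dense
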